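import Pool.Agent.Helper83.PT.St6

set_option autoImplicit false

/-! Project PT, module A1 (helper82): numbers. -/

namespace Pool.Agent.Helper83.PT.Helper82

open Pool.Agent.Helper73.DC
open Finset
open scoped Classical

theorem mA1 : StA1 := by
  intro e he
  obtain ⟨K, hK⟩ : ∃ K : ℕ, K = e + 10 := ⟨_, rfl⟩
  refine ⟨3 * (K + 2) * (5 * (e + 2) + 1) + 8 * (K + 4) + 26, ?_⟩
  intro n q hq hqL
  obtain ⟨C, hC⟩ : ∃ C : ℕ, C = 3 * (K + 2) * (5 * (e + 2) + 1) + 8 * (K + 4) + 26 := ⟨_, rfl⟩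
  rw [← hC]
  have hC1 : 5 * (e + 2) + 2 ≤ C := by rw [hC]; nlinarith
  have hC2 : 8 * (K + 4) + 1 ≤ C := by rw [hC]; nlinarith
  have hC3 : 24 ≤ C := by rw [hC]; omega
  have hC4 : 3 * (K + 2) * (5 * (e + 2) + 1) ≤ C := by rw [hC]; omega
  clear hC
  unfold DD BB LL at hqL ⊢
  unfold kkk eee
  -- the numbers
  have hlam1 : n + 2 < 2 ^ lam n := Nat.lt_pow_succ_log_self (by norm_num) (n + 2)
  have hlam2 : 2 ^ lam n ≤ (n + 2) ^ 2 := by
    unfold lam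
    have h := Nat.pow_log_le_self 2 (show n + 2 ≠ 0 by omega)
    rw [pow_succ]
    nlinarith
  have hlam3 : 1 ≤ lam n := by unfold lam; omega
  have hl1 : 2 ^ lll n ≤ lam n := Nat.pow_log_le_self 2 (by omega)
  have hl2 : lam n < 2 ^ (lll n + 1) := Nat.lt_pow_succ_log_self (by norm_num) (lam n)
  generalize lam n = A at *
  generalize lll n = l at *
  obtain ⟨m, hm⟩ : ∃ m : ℕ, m = l / 2 := ⟨_, rfl⟩
  rw [← hm]
  obtain ⟨s, hs⟩ : ∃ s : ℕ, s = 2 ^ m := ⟨_, rfl⟩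
  have hs1 : m + 1 ≤ s := by rw [hs]; exact Nat.lt_two_pow_self
  have hs2 : s * s ≤ A := by
    refine le_trans ?_ hl1
    rw [hs, ← pow_add]
    exact Nat.pow_le_pow_right (by norm_num) (by omega)
  have hsl : l + 1 ≤ 2 * s := by omega
  have hss : s ≤ s * s := Nat.le_mul_self s
  have hlA : l + 1 ≤ A := by
    have : l < 2 ^ l := Nat.lt_two_pow_self
    omega
  have hkk : 2 * 2 ^ (m + 1) = 4 * s := by rw [pow_succ, ← hs]; ring
  rw [hkk]
  -- the number of digits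
  obtain ⟨T, hT⟩ : ∃ T : ℕ, T = 5 * (e + 2) * A := ⟨_, rfl⟩
  rw [← hT] at hqL ⊢
  obtain ⟨Dn, hDn⟩ : ∃ Dn : ℕ, Dn = T / (l + 1) + 1 := ⟨_, rfl⟩
  rw [← hDn] at hqL ⊢
  have hD1 : T < (l + 1) * Dn := by rw [hDn]; exact Nat.lt_mul_div_succ _ (by omega)
  have hD2 : (l + 1) * Dn ≤ T + A := by
    rw [hDn, mul_add, mul_one]
    have := Nat.mul_div_le T (l + 1)
    omega
  have hTA : T + A = (5 * (e + 2) + 1) * A := by rw [hT]; ring
  have hD3 : Dn ≤ (5 * (e + 2) + 1) * A := by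
    rw [← hTA]
    refine le_trans ?_ hD2
    exact Nat.le_mul_of_pos_left _ (by omega)
  -- q
  have hK2 : 6 * (8 * (5 * (e + 2) + 1) + 4) ≤ 2 ^ K := by
    have h1 : e + 2 < 2 ^ (e + 2) := Nat.lt_two_pow_self
    have h2 : 2 ^ K = 2 ^ (e + 2) * 256 := by
      rw [hK, show e + 10 = (e + 2) + 8 by ring, pow_add]; norm_num
    rw [h2]; nlinarith
  have h2A : 2 ^ (l + 1) ≤ 2 * A := by rw [pow_succ]; omega
  have hAA : 1 ≤ A * A := Nat.one_le_iff_ne_zero.mpr (by positivity)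
  have hq1 : q ≤ (8 * (5 * (e + 2) + 1) + 4) * (A * A) := by
    have h1 : Dn * 2 ^ (l + 1) ≤ ((5 * (e + 2) + 1) * A) * (2 * A) := Nat.mul_le_mul hD3 h2A
    have h2 : ((5 * (e + 2) + 1) * A) * (2 * A) = 2 * (5 * (e + 2) + 1) * (A * A) := by ring
    rw [h2] at h1
    have h3 : (8 * (5 * (e + 2) + 1) + 4) * (A * A) =
        4 * (2 * (5 * (e + 2) + 1) * (A * A)) + 4 * (A * A) := by ring
    rw [h3]
    omega
  have hq6 : 6 * q < 2 ^ (K + 2 * l + 2) := by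
    have h1 : 6 * q ≤ 6 * (8 * (5 * (e + 2) + 1) + 4) * (A * A) := by
      rw [mul_assoc]
      exact Nat.mul_le_mul_left _ hq1
    have h2 : 6 * (8 * (5 * (e + 2) + 1) + 4) * (A * A) ≤ 2 ^ K * (A * A) :=
      Nat.mul_le_mul_right _ hK2
    have h4 : A * A < 2 ^ (l + 1) * 2 ^ (l + 1) := Nat.mul_lt_mul'' hl2 hl2
    have h3 : 2 ^ K * (A * A) < 2 ^ K * (2 ^ (l + 1) * 2 ^ (l + 1)) :=
      Nat.mul_lt_mul_of_pos_left h4 (by positivity)
    have h5 : 2 ^ (K + 2 * l + 2) = 2 ^ K * (2 ^ (l + 1) * 2 ^ (l + 1)) := by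
      rw [← pow_add, ← pow_add]
      congr 1
      ring
    rw [h5]
    omega
  have hKl : K + 2 * l + 2 ≤ (K + 4) * s := by nlinarith
  have hKl2 : K + 2 * l + 2 ≤ (K + 2) * (l + 1) := by nlinarith
  refine ⟨?_, ?_, ?_, ?_, ?_, ?_, hlam2⟩
  · -- (1)
    have h1 : (n + 2) ^ e + 2 ≤ (n + 2) ^ (e + 2) := by
      have : 1 ≤ (n + 2) ^ e := Nat.one_le_pow _ _ (by omega)
      rw [pow_add]
      nlinarith
    have h2 : (n + 2) ^ (e + 2) ≤ (2 ^ A) ^ (e + 2) := Nat.pow_le_pow_left hlam1.le _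
    calc ((n + 2) ^ e + 2) ^ 5 ≤ ((2 ^ A) ^ (e + 2)) ^ 5 := Nat.pow_le_pow_left (h1.trans h2) _
      _ = 2 ^ T := by rw [← pow_mul, ← pow_mul, hT]; ring_nf
      _ ≤ 2 ^ ((l + 1) * Dn) := Nat.pow_le_pow_right (by norm_num) hD1.le
      _ = (2 ^ (l + 1)) ^ Dn := by rw [pow_mul]
  · -- (2)
    rw [← pow_mul]
    refine Nat.pow_lt_pow_right (by norm_num) ?_
    refine lt_of_le_of_lt hD2 ?_
    rw [hTA]
    exact Nat.mul_lt_mul_of_pos_right (by omega) (by omega)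
  · -- (3)
    have h1 : K + 2 * l + 2 ≤ C * A := by
      have : (K + 4) * s ≤ C * A := Nat.mul_le_mul (by omega) (hss.trans hs2)
      omega
    have h2 : 2 ^ (K + 2 * l + 2) ≤ 2 ^ (C * A) := Nat.pow_le_pow_right (by norm_num) h1
    omega
  · -- (4)
    have h0 : (K + 2 * l + 2) * (4 * s + 1) < C * A := by
      have h1 : (K + 2 * l + 2) * (4 * s + 1) ≤ ((K + 4) * s) * (8 * s) :=
        Nat.mul_le_mul hKl (by omega)
      have h2 : ((K + 4) * s) * (8 * s) = (8 * (K + 4)) * (s * s) := by ring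
      have h3 : (8 * (K + 4)) * (s * s) ≤ (8 * (K + 4)) * A := Nat.mul_le_mul_left _ hs2
      have h4 : (8 * (K + 4)) * A < C * A := Nat.mul_lt_mul_of_pos_right (by omega) (by omega)
      omega
    calc (6 * (q - 1)) ^ (4 * s + 1) ≤ (2 ^ (K + 2 * l + 2)) ^ (4 * s + 1) :=
          Nat.pow_le_pow_left (by omega) _
      _ = 2 ^ ((K + 2 * l + 2) * (4 * s + 1)) := by rw [← pow_mul]
      _ < 2 ^ (C * A) := Nat.pow_lt_pow_right (by norm_num) h0
  · -- (5)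
    have h0 : (m + 3) * (4 * s + 3) ≤ C * A := by
      have h1 : (m + 3) * (4 * s + 3) ≤ (3 * s) * (8 * s) := Nat.mul_le_mul (by omega) (by omega)
      have h2 : (3 * s) * (8 * s) = 24 * (s * s) := by ring
      have h3 : 24 * (s * s) ≤ C * A := Nat.mul_le_mul hC3 hs2
      omega
    have h5 : 4 * s + 3 ≤ 2 ^ (m + 3) := by
      rw [pow_add, ← hs]; omega
    calc (4 * s + 3) ^ (4 * s + 3) ≤ (2 ^ (m + 3)) ^ (4 * s + 3) := Nat.pow_le_pow_left h5 _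
      _ = 2 ^ ((m + 3) * (4 * s + 3)) := by rw [← pow_mul]
      _ ≤ 2 ^ (C * A) := Nat.pow_le_pow_right (by norm_num) h0
  · -- (6)
    have h0 : (K + 2 * l + 2) * (3 * Dn) ≤ C * A := by
      calc (K + 2 * l + 2) * (3 * Dn) ≤ ((K + 2) * (l + 1)) * (3 * Dn) :=
            Nat.mul_le_mul_right _ hKl2
        _ = 3 * (K + 2) * ((l + 1) * Dn) := by ring
        _ ≤ 3 * (K + 2) * (T + A) := Nat.mul_le_mul_left _ hD2
        _ = 3 * (K + 2) * (5 * (e + 2) + 1) * A := by rw [hTA]; ring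
        _ ≤ C * A := Nat.mul_le_mul_right _ hC4
    calc q ^ (3 * Dn) ≤ (2 ^ (K + 2 * l + 2)) ^ (3 * Dn) := Nat.pow_le_pow_left (by omega) _
      _ = 2 ^ ((K + 2 * l + 2) * (3 * Dn)) := by rw [← pow_mul]
      _ ≤ 2 ^ (C * A) := Nat.pow_le_pow_right (by norm_num) h0

end Pool.Agent.Helper83.PT.Helper82
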