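import Pool.Agent.Helper83.PT.St6

set_option autoImplicit false

/-! Project PT, module A2 (helper82): the number of levels. -/

namespace Pool.Agent.Helper83.PT.Helper82

open Pool.Agent.Helper73.DC
open Finset
open scoped Classical

theorem mA2 : StA2 := by
  constructor
  · intro c
    refine ⟨4 * c, ?_⟩
    intro n
    obtain ⟨x, hx⟩ : ∃ x : ℕ, x = Nat.log 2 n := ⟨_, rfl⟩
    obtain ⟨k, hk⟩ : ∃ k : ℕ, k = 2 ^ eee n := ⟨_, rfl⟩
    rw [← hx, ← hk]
    have hx1 : x ≤ lam n := by
      rw [hx]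
      unfold lam
      have : Nat.log 2 n ≤ Nat.log 2 (n + 2) := Nat.log_mono_right (by omega)
      omega
    have hlam3 : 1 ≤ lam n := by unfold lam; omega
    have hl2 : lam n < 2 ^ (lll n + 1) := Nat.lt_pow_succ_log_self (by norm_num) (lam n)
    have hk2 : 2 ^ (lll n + 1) ≤ k ^ 2 := by
      rw [hk, ← pow_mul]
      apply Nat.pow_le_pow_right (by norm_num)
      unfold eee
      omega
    have hxk : x ≤ k ^ 2 := by omega
    have hk1 : 2 ≤ k := by
      rw [hk]
      unfold eee
      rw [pow_succ]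
      have : 1 ≤ 2 ^ (lll n / 2) := Nat.one_le_two_pow
      omega
    have h1 : x ^ c ≤ k ^ (2 * c) := by
      rw [pow_mul]
      exact Nat.pow_le_pow_left hxk c
    have h2 : 1 ≤ k ^ (2 * c) := Nat.one_le_pow _ _ (by omega)
    have h3 : 2 * c < k ^ (2 * c) :=
      lt_of_lt_of_le Nat.lt_two_pow_self (Nat.pow_le_pow_left hk1 _)
    calc c * x ^ c + c = c * (x ^ c + 1) := by ring
      _ ≤ c * (2 * k ^ (2 * c)) := Nat.mul_le_mul_left _ (by omega)
      _ = 2 * c * k ^ (2 * c) := by ring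
      _ < k ^ (2 * c) * k ^ (2 * c) := Nat.mul_lt_mul_of_pos_right h3 (by omega)
      _ = k ^ (4 * c) := by rw [← pow_add]; congr 1; ring
  · intro C
    refine ⟨2 * (C + 1), ?_⟩
    intro n
    have h : Nat.log 2 (n + 2) ≤ Nat.log 2 n + 2 := by
      rcases Nat.eq_zero_or_pos n with rfl | hn
      · have : Nat.log 2 2 = 1 := by decide +kernel
        simp [this]
      · have h1 : Nat.log 2 (n + 2) ≤ Nat.log 2 (n * 2 * 2) := Nat.log_mono_right (by omega)
        have h2 : Nat.log 2 (n * 2 * 2) = Nat.log 2 n + 2 := by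
          rw [Nat.log_mul_base (by norm_num) (by omega), Nat.log_mul_base (by norm_num) (by omega)]
        omega
    calc (C + 1) * Nat.log 2 (n + 2) ≤ (C + 1) * (Nat.log 2 n + 2) := Nat.mul_le_mul_left _ h
      _ ≤ 2 * (C + 1) * Nat.log 2 n + 2 * (C + 1) := by nlinarith [Nat.zero_le (Nat.log 2 n)]

end Pool.Agent.Helper83.PT.Helper82
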